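import Pool.Agent.Helper81.OP.Defs

/-!
PROF: the profiles add up over disjoint branches.
-/

set_option autoImplicit false

open SimpleGraph
open scoped Classical ENNReal

namespace Pool.Agent.Helper81.OP

lemma prof_un_disjoint {V : Type} (C : Finset V) (Cs : List (Finset V))
    (h : ∀ A ∈ Cs, Disjoint C A) : Disjoint C (un Cs) := by
  induction Cs with
  | nil => exact Finset.disjoint_empty_right _
  | cons A Cs ih =>
    change Disjoint C (A ∪ un Cs)
    rw [Finset.disjoint_union_right]
    exact ⟨h A List.mem_cons_self, ih fun B hB => h B (List.mem_cons_of_mem _ hB)⟩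

lemma prof_add {V : Type} (G : SimpleGraph V) (B₁ B₂ Y : Finset V) (v₁ v₂ : ℕ)
    (hB : Disjoint B₁ B₂) (h₁ : D G B₁ Y v₁) (h₂ : D G B₂ Y v₂) :
    D G (B₁ ∪ B₂) Y (v₁ + v₂) := by
  obtain ⟨X₁, A₁, hX₁, hF₁, hA₁, hc₁⟩ := h₁
  obtain ⟨X₂, A₂, hX₂, hF₂, hA₂, hc₂⟩ := h₂
  have hdis : Disjoint A₁ A₂ := by
    rw [Finset.disjoint_left]
    intro A hA hA'
    obtain ⟨x, hx⟩ := hF₁.ne A hA
    exact Finset.disjoint_left.1 hB (hA₁ A hA hx) (hA₂ A hA' hx)
  refine ⟨X₁ ∪ X₂, A₁ ∪ A₂, Finset.union_subset_union hX₁ hX₂, ?_, ?_, ?_⟩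
  · constructor
    · intro A hA
      rcases Finset.mem_union.1 hA with h | h
      · exact hF₁.ne A h
      · exact hF₂.ne A h
    · intro A hA A' hA' hne
      rcases Finset.mem_union.1 hA with h | h <;> rcases Finset.mem_union.1 hA' with h' | h'
      · exact hF₁.dj A h A' h' hne
      · exact Finset.disjoint_of_subset_left (hA₁ A h)
          (Finset.disjoint_of_subset_right (hA₂ A' h') hB)
      · exact Finset.disjoint_of_subset_left (hA₂ A h)
          (Finset.disjoint_of_subset_right (hA₁ A' h') hB.symm)
      · exact hF₂.dj A h A' h' hne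
    · intro A hA
      rw [Finset.disjoint_union_right, Finset.disjoint_union_right]
      rcases Finset.mem_union.1 hA with h | h
      · have := hF₁.off A h
        rw [Finset.disjoint_union_right] at this
        exact ⟨⟨this.1, Finset.disjoint_of_subset_left (hA₁ A h)
          (Finset.disjoint_of_subset_right hX₂ hB)⟩, this.2⟩
      · have := hF₂.off A h
        rw [Finset.disjoint_union_right] at this
        exact ⟨⟨Finset.disjoint_of_subset_left (hA₂ A h)
          (Finset.disjoint_of_subset_right hX₁ hB.symm), this.1⟩, this.2⟩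
    · intro A hA x hx y hxy
      rcases Finset.mem_union.1 hA with h | h
      · rcases hF₁.cl A h x hx y hxy with h' | h'
        · exact Or.inl h'
        · right
          rw [Finset.mem_union] at h' ⊢
          rcases h' with h' | h'
          · exact Or.inl (Finset.mem_union_left _ h')
          · exact Or.inr h'
      · rcases hF₂.cl A h x hx y hxy with h' | h'
        · exact Or.inl h'
        · right
          rw [Finset.mem_union] at h' ⊢
          rcases h' with h' | h'
          · exact Or.inl (Finset.mem_union_right _ h')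
          · exact Or.inr h'
  · intro A hA
    rcases Finset.mem_union.1 hA with h | h
    · exact (hA₁ A h).trans Finset.subset_union_left
    · exact (hA₂ A h).trans Finset.subset_union_right
  · have e1 : (A₁ ∪ A₂).card = A₁.card + A₂.card := Finset.card_union_of_disjoint hdis
    have e2 : (X₁ ∪ X₂).card ≤ X₁.card + X₂.card := Finset.card_union_le _ _
    omega

lemma prof_list {V : Type} (G : SimpleGraph V) (f : ℕ → V) (W : ℕ) (hW : W < 64)
    {bs : List St} {Cs : List (Finset V)}
    (h : List.Forall₂ (fun σ C => Real G f C σ) bs Cs) (hp : Cs.Pairwise Disjoint) :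
    D G (un Cs) (fm f W) (hsum bs W) := by
  induction h with
  | nil =>
    refine ⟨∅, ∅, Finset.empty_subset _, ⟨?_, ?_, ?_, ?_⟩, ?_, ?_⟩
    · intro A hA; simp at hA
    · intro A hA; simp at hA
    · intro A hA; simp at hA
    · intro A hA; simp at hA
    · intro A hA; simp at hA
    · simp [hsum]
  | @cons σ C bs Cs hσ _ ih =>
    rw [List.pairwise_cons] at hp
    have h1 : hsum (σ :: bs) W = dig σ.h W + hsum bs W := by
      simp [hsum]
    rw [h1]
    exact prof_add G C (un Cs) _ _ _ (prof_un_disjoint C Cs hp.1) (hσ.pr W hW) (ih hp.2)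

theorem st_PROF : ST_PROF := by
  intro V G f q bs Cs hq hC W hW
  have h1 : 2 ^ q ≤ 2 ^ 6 := Nat.pow_le_pow_right (by norm_num) hq
  exact prof_list G f W (by norm_num at h1; omega) hC.real hC.dj

end Pool.Agent.Helper81.OP
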